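import Pool.Agent.Helper51.KD.Cnt

/-! # Project KD (MP_b21509_co), modules HUL and EXC: existence of Delaunay triangles -/

open Set Helper97.CB Helper51.KD

namespace Pool.Agent.Helper33.KD

/-- **Module HUL.**  Points which are not too close to the boundary are in the convex hull. -/
theorem hul (S : Finset ℂ) (R : ℝ) (hS : ∀ y : ℂ, ‖y‖ ≤ R → ∃ s ∈ S, ‖y - s‖ ≤ 1)
    (x : ℂ) (hx : ‖x‖ ≤ R - 1) : x ∈ convexHull ℝ (S : Set ℂ) := by
  by_contra hn
  have hcl : IsClosed (convexHull ℝ (S : Set ℂ)) :=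
    (S.finite_toSet.isCompact_convexHull (𝕜 := ℝ)).isClosed
  obtain ⟨f, u, h1, h2⟩ := geometric_hahn_banach_closed_point (convex_convexHull ℝ _) hcl hn
  have hf : ∀ z : ℂ, f z = f 1 * z.re + f Complex.I * z.im := by
    intro z
    have : z = z.re • (1 : ℂ) + z.im • Complex.I := by
      apply Complex.ext <;> simp
    conv_lhs => rw [this]
    rw [map_add, map_smul, map_smul, smul_eq_mul, smul_eq_mul]
    ring
  obtain ⟨M, hM⟩ : ∃ M : ℝ, M = √(f 1 ^ 2 + f Complex.I ^ 2) := ⟨_, rfl⟩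
  have hM2 : M ^ 2 = f 1 ^ 2 + f Complex.I ^ 2 := by
    rw [hM, Real.sq_sqrt (by positivity)]
  have hM0 : 0 ≤ M := by rw [hM]; exact Real.sqrt_nonneg _
  have hcs : ∀ z : ℂ, f z ≤ M * ‖z‖ := by
    intro z
    have hz : ‖z‖ ^ 2 = z.re ^ 2 + z.im ^ 2 := by
      rw [← Complex.normSq_eq_norm_sq, Complex.normSq_apply]; ring
    have : f z ^ 2 ≤ (M * ‖z‖) ^ 2 := by
      rw [mul_pow, hM2, hz, hf z]
      nlinarith [sq_nonneg (f 1 * z.im - f Complex.I * z.re)]
    exact (le_abs_self _).trans (abs_le_of_sq_le_sq this (by positivity))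
  rcases hM0.eq_or_lt with h0 | hpos
  · -- `f = 0`
    have hz : f x = 0 := by
      have h3 := hcs x
      have h4 := hcs (-x)
      rw [map_neg] at h4
      rw [← h0] at h3 h4
      linarith
    obtain ⟨s, hs, -⟩ := hS x (by linarith)
    have h5 : f s = 0 := by
      have h3 := hcs s
      have h4 := hcs (-s)
      rw [map_neg] at h4
      rw [← h0] at h3 h4
      linarith
    have := h1 s (subset_convexHull ℝ _ (Finset.mem_coe.2 hs))
    linarith
  · obtain ⟨n, hn'⟩ : ∃ n : ℂ, n = ⟨f 1 / M, f Complex.I / M⟩ := ⟨_, rfl⟩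
    have hnn : ‖n‖ = 1 := by
      have : ‖n‖ ^ 2 = 1 := by
        rw [← Complex.normSq_eq_norm_sq, Complex.normSq_apply, hn']
        field_simp
        linarith
      nlinarith [norm_nonneg n]
    have hfn : f n = M := by
      rw [hf n, hn']
      field_simp
      linarith
    obtain ⟨s, hs, hd⟩ := hS (x + n) (by linarith [norm_add_le x n])
    have h3 := hcs (x + n - s)
    rw [map_sub, map_add, hfn] at h3
    have h4 : M * ‖x + n - s‖ ≤ M := by nlinarith
    have h5 := h1 s (subset_convexHull ℝ _ (Finset.mem_coe.2 hs))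
    linarith

/-- barycentric coordinates -/
theorem bary (x a b c : ℂ) (A B C : ℝ) (h : A + B + C = 1)
    (hr : x.re = A * a.re + B * b.re + C * c.re) (hi : x.im = A * a.im + B * b.im + C * c.im) :
    cr (b - x) (c - x) = A * cr (b - a) (c - a) ∧ cr (c - x) (a - x) = B * cr (b - a) (c - a) ∧
      cr (a - x) (b - x) = C * cr (b - a) (c - a) := by
  obtain rfl : C = 1 - A - B := by linarith
  simp only [cr, Complex.sub_re, Complex.sub_im, hr, hi]
  refine ⟨by ring, by ring, by ring⟩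

theorem cr_sum (x a b c : ℂ) :
    cr (b - x) (c - x) + cr (c - x) (a - x) + cr (a - x) (b - x) = cr (b - a) (c - a) := by
  simp only [cr, Complex.sub_re, Complex.sub_im]
  ring

/-- positively oriented triangle with `x` in its interior -/
def Pos (x a b c : ℂ) : Prop :=
  0 < cr (b - x) (c - x) ∧ 0 < cr (c - x) (a - x) ∧ 0 < cr (a - x) (b - x)

theorem Pos.D {x a b c : ℂ} (h : Pos x a b c) : 0 < cr (b - a) (c - a) := by
  rw [← cr_sum x]
  exact add_pos (add_pos h.1 h.2.1) h.2.2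

/-- the value at `x` of the interpolating affine function -/
noncomputable def Lv (w : ℂ → ℝ) (x a b c : ℂ) : ℝ :=
  (cr (b - x) (c - x) * qf w a + cr (c - x) (a - x) * qf w b + cr (a - x) (b - x) * qf w c) /
    cr (b - a) (c - a)

theorem interp (a b c : ℂ) (h : cr (b - a) (c - a) ≠ 0) (A B C : ℝ) :
    ∃ p r t : ℝ, aff p r t a = A ∧ aff p r t b = B ∧ aff p r t c = C := by
  refine ⟨((B - A) * (c - a).im - (C - A) * (b - a).im) / cr (b - a) (c - a),
    ((C - A) * (b - a).re - (B - A) * (c - a).re) / cr (b - a) (c - a),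
    A - ((B - A) * (c - a).im - (C - A) * (b - a).im) / cr (b - a) (c - a) * a.re -
      ((C - A) * (b - a).re - (B - A) * (c - a).re) / cr (b - a) (c - a) * a.im, ?_, ?_, ?_⟩
  · simp only [aff]
    ring
  · simp only [aff]
    field_simp
    simp only [cr, Complex.sub_re, Complex.sub_im]
    ring
  · simp only [aff]
    field_simp
    simp only [cr, Complex.sub_re, Complex.sub_im]
    ring

theorem aff_id (p r t : ℝ) (x a b c : ℂ) :
    cr (b - x) (c - x) * aff p r t a + cr (c - x) (a - x) * aff p r t b +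
      cr (a - x) (b - x) * aff p r t c = cr (b - a) (c - a) * aff p r t x := by
  simp only [aff, cr, Complex.sub_re, Complex.sub_im]
  ring

theorem exch1 (w : ℂ → ℝ) (x a b c d : ℂ) (p r t : ℝ) (h : Pos x a b c)
    (ha : aff p r t a = qf w a) (hb : aff p r t b = qf w b) (hc : aff p r t c = qf w c)
    (hd : qf w d < aff p r t d) (hvA : 0 < cr (b - d) (c - d))
    (h2 : cr (b - x) (c - x) * cr (c - d) (a - d) ≤ cr (c - x) (a - x) * cr (b - d) (c - d))
    (h3 : cr (b - x) (c - x) * cr (a - d) (b - d) ≤ cr (a - x) (b - x) * cr (b - d) (c - d))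
    (g1 : cr (c - x) (d - x) ≠ 0) (g2 : cr (d - x) (b - x) ≠ 0) :
    Pos x d b c ∧ Lv w x d b c < Lv w x a b c := by
  have hD := h.D
  have e1 : cr (b - a) (c - a) * cr (c - x) (d - x) =
      cr (c - x) (a - x) * cr (b - d) (c - d) - cr (b - x) (c - x) * cr (c - d) (a - d) := by
    simp only [cr, Complex.sub_re, Complex.sub_im]
    ring
  have e2 : cr (b - a) (c - a) * cr (d - x) (b - x) =
      cr (a - x) (b - x) * cr (b - d) (c - d) - cr (b - x) (c - x) * cr (a - d) (b - d) := by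
    simp only [cr, Complex.sub_re, Complex.sub_im]
    ring
  have p1 : 0 < cr (c - x) (d - x) := by
    have h0 : 0 ≤ cr (c - x) (d - x) := by
      by_contra hneg
      push Not at hneg
      have := mul_neg_of_pos_of_neg hD hneg
      linarith
    exact lt_of_le_of_ne h0 (Ne.symm g1)
  have p2 : 0 < cr (d - x) (b - x) := by
    have h0 : 0 ≤ cr (d - x) (b - x) := by
      by_contra hneg
      push Not at hneg
      have := mul_neg_of_pos_of_neg hD hneg
      linarith
    exact lt_of_le_of_ne h0 (Ne.symm g2)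
  refine ⟨⟨h.1, p1, p2⟩, ?_⟩
  have hL : Lv w x a b c = aff p r t x := by
    unfold Lv
    rw [← ha, ← hb, ← hc, aff_id]
    field_simp
  rw [hL]
  unfold Lv
  rw [div_lt_iff₀ hvA]
  have h4 := aff_id p r t x d b c
  rw [hb, hc] at h4
  have h5 := mul_lt_mul_of_pos_left hd h.1
  linarith

theorem Pos.rot {x a b c : ℂ} (h : Pos x a b c) : Pos x b c a := ⟨h.2.1, h.2.2, h.1⟩

theorem Lv_rot (w : ℂ → ℝ) (x a b c : ℂ) : Lv w x b c a = Lv w x a b c := by
  unfold Lv
  have : cr (c - b) (a - b) = cr (b - a) (c - a) := by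
    simp only [cr, Complex.sub_re, Complex.sub_im]
    ring
  rw [this]
  ring

theorem idx (A B C u v z : ℝ) (hA : 0 < A) (hB : 0 < B) (hC : 0 < C) (h : 0 < u + v + z) :
    (0 < u ∧ A * v ≤ B * u ∧ A * z ≤ C * u) ∨ (0 < v ∧ B * z ≤ C * v ∧ B * u ≤ A * v) ∨
      (0 < z ∧ C * u ≤ A * z ∧ C * v ≤ B * z) := by
  obtain ⟨i, hi⟩ := exists_max_image (univ : Set (Fin 3))
    (fun i => (![u, v, z] : Fin 3 → ℝ) i / (![A, B, C] : Fin 3 → ℝ) i) (Set.toFinite _)
    ⟨0, mem_univ _⟩
  obtain ⟨-, hi⟩ := hi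
  have h0 := hi 0 (mem_univ _)
  have h1 := hi 1 (mem_univ _)
  have h2 := hi 2 (mem_univ _)
  fin_cases i <;> simp at h0 h1 h2
  · left
    rw [div_le_div_iff₀ hB hA] at h1
    rw [div_le_div_iff₀ hC hA] at h2
    have hu : 0 < u := by
      by_contra hn
      push Not at hn
      have : v ≤ 0 := by nlinarith
      have : z ≤ 0 := by nlinarith
      linarith
    exact ⟨hu, by linarith, by linarith⟩
  · right; left
    rw [div_le_div_iff₀ hA hB] at h0
    rw [div_le_div_iff₀ hC hB] at h2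
    have hv : 0 < v := by
      by_contra hn
      push Not at hn
      have : u ≤ 0 := by nlinarith
      have : z ≤ 0 := by nlinarith
      linarith
    exact ⟨hv, by linarith, by linarith⟩
  · right; right
    rw [div_le_div_iff₀ hA hC] at h0
    rw [div_le_div_iff₀ hB hC] at h1
    have hz : 0 < z := by
      by_contra hn
      push Not at hn
      have : u ≤ 0 := by nlinarith
      have : v ≤ 0 := by nlinarith
      linarith
    exact ⟨hz, by linarith, by linarith⟩

theorem cara (S : Finset ℂ) (x : ℂ) (hx : x ∈ convexHull ℝ (S : Set ℂ)) (hxS : x ∉ S)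
    (hline : ∀ p ∈ S, ∀ q ∈ S, p ≠ q → cr (q - p) (x - p) ≠ 0) :
    ∃ a ∈ S, ∃ b ∈ S, ∃ c ∈ S, Pos x a b c := by
  obtain ⟨ι, _, z, wt, hz, haff, hpos, hsum, hcomb⟩ := eq_pos_convex_span_of_mem_convexHull hx
  have hcard : Fintype.card ι ≤ 3 := by
    have := haff.card_le_finrank_succ
    have h2 : Module.finrank ℝ ℂ = 2 := Complex.finrank_real_complex
    have h3 : Module.finrank ℝ (vectorSpan ℝ (range z)) ≤ 2 := by
      rw [← h2]; exact Submodule.finrank_le _
    omega
  have hmem : ∀ i, z i ∈ S := fun i => Finset.mem_coe.1 (hz ⟨i, rfl⟩)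
  have hinj := haff.injective
  obtain ⟨n, hn⟩ : ∃ n, n = Fintype.card ι := ⟨_, rfl⟩
  have e := (Fintype.equivFinOfCardEq hn.symm)
  have hs1 : ∑ i : Fin n, wt (e.symm i) = 1 := by
    rw [← hsum]
    exact Fintype.sum_equiv e.symm _ _ (fun _ => rfl)
  have hs2 : ∑ i : Fin n, wt (e.symm i) • z (e.symm i) = x := by
    rw [← hcomb]
    exact Fintype.sum_equiv e.symm _ _ (fun _ => rfl)
  rw [← hn] at hcard
  have hcases : n = 0 ∨ n = 1 ∨ n = 2 ∨ n = 3 := by omega
  rcases hcases with rfl | rfl | rfl | rfl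
  · simp at hs1
  · exfalso
    rw [Fin.sum_univ_one] at hs1 hs2
    rw [hs1, one_smul] at hs2
    exact hxS (hs2 ▸ hmem _)
  · exfalso
    rw [Fin.sum_univ_two] at hs1 hs2
    have hne : z (e.symm 0) ≠ z (e.symm 1) := fun h => by
      have := e.symm.injective (hinj h)
      simp at this
    apply hline _ (hmem (e.symm 0)) _ (hmem (e.symm 1)) hne
    have h0 : wt (e.symm 0) = 1 - wt (e.symm 1) := by linarith
    rw [← hs2, h0]
    simp only [cr, Complex.sub_re, Complex.sub_im, Complex.add_re, Complex.add_im,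
      Complex.smul_re, Complex.smul_im, smul_eq_mul]
    ring
  · rw [Fin.sum_univ_three] at hs1 hs2
    have hne : z (e.symm 0) ≠ z (e.symm 1) := fun h => by
      have := e.symm.injective (hinj h)
      simp at this
    obtain ⟨A, hA⟩ : ∃ A, A = wt (e.symm 0) := ⟨_, rfl⟩
    obtain ⟨B, hB⟩ : ∃ B, B = wt (e.symm 1) := ⟨_, rfl⟩
    obtain ⟨C, hC⟩ : ∃ C, C = wt (e.symm 2) := ⟨_, rfl⟩
    obtain ⟨a, ha⟩ : ∃ a, a = z (e.symm 0) := ⟨_, rfl⟩
    obtain ⟨b, hb⟩ : ∃ b, b = z (e.symm 1) := ⟨_, rfl⟩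
    obtain ⟨c, hc⟩ : ∃ c, c = z (e.symm 2) := ⟨_, rfl⟩
    have haS : a ∈ S := ha ▸ hmem _
    have hbS : b ∈ S := hb ▸ hmem _
    have hcS : c ∈ S := hc ▸ hmem _
    have hA0 : 0 < A := hA ▸ hpos _
    have hB0 : 0 < B := hB ▸ hpos _
    have hC0 : 0 < C := hC ▸ hpos _
    rw [← hA, ← hB, ← hC] at hs1
    rw [← hA, ← hB, ← hC, ← ha, ← hb, ← hc] at hs2
    rw [← ha, ← hb] at hne
    have hr : x.re = A * a.re + B * b.re + C * c.re := by
      rw [← hs2]; simp
    have hi : x.im = A * a.im + B * b.im + C * c.im := by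
      rw [← hs2]; simp
    obtain ⟨k1, k2, k3⟩ := bary x a b c A B C hs1 hr hi
    have hD : cr (b - a) (c - a) ≠ 0 := by
      intro h0
      apply hline a haS b hbS hne
      rw [h0, mul_zero] at k3
      have : cr (b - a) (x - a) = cr (a - x) (b - x) := by
        simp only [cr, Complex.sub_re, Complex.sub_im]
        ring
      rw [this, k3]
    rcases lt_or_gt_of_ne hD with hneg | hpos'
    · refine ⟨a, haS, c, hcS, b, hbS, ?_, ?_, ?_⟩
      · have : cr (c - x) (b - x) = -cr (b - x) (c - x) := by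
          simp only [cr]; ring
        rw [this, k1]
        nlinarith
      · have : cr (b - x) (a - x) = -cr (a - x) (b - x) := by
          simp only [cr]; ring
        rw [this, k3]
        nlinarith
      · have : cr (a - x) (c - x) = -cr (c - x) (a - x) := by
          simp only [cr]; ring
        rw [this, k2]
        nlinarith
    · refine ⟨a, haS, b, hbS, c, hcS, ?_, ?_, ?_⟩
      · rw [k1]; exact mul_pos hA0 hpos'
      · rw [k2]; exact mul_pos hB0 hpos'
      · rw [k3]; exact mul_pos hC0 hpos'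

theorem Pos.mem_hull {x a b c : ℂ} (h : Pos x a b c) : x ∈ convexHull ℝ ({a, b, c} : Set ℂ) := by
  have hD := h.D
  have hsum := cr_sum x a b c
  have e : x = (cr (b - x) (c - x) / cr (b - a) (c - a)) • a +
      (cr (c - x) (a - x) / cr (b - a) (c - a)) • b +
      (cr (a - x) (b - x) / cr (b - a) (c - a)) • c := by
    apply Complex.ext
    · simp only [Complex.add_re, Complex.smul_re, smul_eq_mul]
      field_simp
      simp only [cr, Complex.sub_re, Complex.sub_im]
      ring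
    · simp only [Complex.add_im, Complex.smul_im, smul_eq_mul]
      field_simp
      simp only [cr, Complex.sub_re, Complex.sub_im]
      ring
  have hc := convex_convexHull ℝ ({a, b, c} : Set ℂ)
  have ma : a ∈ convexHull ℝ ({a, b, c} : Set ℂ) := subset_convexHull ℝ _ (by simp)
  have mb : b ∈ convexHull ℝ ({a, b, c} : Set ℂ) := subset_convexHull ℝ _ (by simp)
  have mc : c ∈ convexHull ℝ ({a, b, c} : Set ℂ) := subset_convexHull ℝ _ (by simp)
  have := hc.sum_mem (t := (Finset.univ : Finset (Fin 3)))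
    (w := ![cr (b - x) (c - x) / cr (b - a) (c - a), cr (c - x) (a - x) / cr (b - a) (c - a),
      cr (a - x) (b - x) / cr (b - a) (c - a)]) (z := ![a, b, c])
    (by
      intro i _
      fin_cases i
      · exact (div_pos h.1 hD).le
      · exact (div_pos h.2.1 hD).le
      · exact (div_pos h.2.2 hD).le)
    (by
      rw [Fin.sum_univ_three]
      simp only [Matrix.cons_val_zero, Matrix.cons_val_one, Matrix.cons_val]
      rw [← add_div, ← add_div, hsum, div_self hD.ne'])
    (by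
      intro i _
      fin_cases i
      · exact ma
      · exact mb
      · exact mc)
  rw [Fin.sum_univ_three] at this
  simp only [Matrix.cons_val_zero, Matrix.cons_val_one, Matrix.cons_val] at this
  rw [← e] at this
  exact this

/-- **Module EXC**, unordered form. -/
theorem exc0 (S : Finset ℂ) (w : ℂ → ℝ) (x : ℂ) (hx : x ∈ convexHull ℝ (S : Set ℂ))
    (hxS : x ∉ S) (hline : ∀ p ∈ S, ∀ q ∈ S, p ≠ q → cr (q - p) (x - p) ≠ 0) :
    ∃ a ∈ S, ∃ b ∈ S, ∃ c ∈ S, Pos x a b c ∧ ∃ p r t : ℝ, aff p r t a = qf w a ∧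
      aff p r t b = qf w b ∧ aff p r t c = qf w c ∧ ∀ s ∈ S, aff p r t s ≤ qf w s := by
  classical
  obtain ⟨a0, ha0, b0, hb0, c0, hc0, hpos0⟩ := cara S x hx hxS hline
  obtain ⟨⟨a, b, c⟩, hm, hmin⟩ := Finset.exists_min_image
    ((S ×ˢ S ×ˢ S).filter fun q => Pos x q.1 q.2.1 q.2.2) (fun q => Lv w x q.1 q.2.1 q.2.2)
    ⟨(a0, b0, c0), by simp [ha0, hb0, hc0, hpos0]⟩
  simp only [Finset.mem_filter, Finset.mem_product] at hm hmin
  obtain ⟨⟨ha, hb, hc⟩, hpos⟩ := hm
  obtain ⟨p, r, t, la, lb, lc⟩ := interp a b c hpos.D.ne' (qf w a) (qf w b) (qf w c)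
  refine ⟨a, ha, b, hb, c, hc, hpos, p, r, t, la, lb, lc, ?_⟩
  intro d hd
  by_contra hlt
  push Not at hlt
  have gen : ∀ u ∈ S, aff p r t u = qf w u → cr (u - x) (d - x) ≠ 0 := by
    intro u hu hu2
    have hne : u ≠ d := by
      rintro rfl
      linarith
    have := hline u hu d hd hne
    have e : cr (d - u) (x - u) = -cr (u - x) (d - x) * (-1) * (1) := by
      simp only [cr, Complex.sub_re, Complex.sub_im]
      ring
    intro h0
    apply this
    rw [e, h0]
    ring
  have gen' : ∀ u ∈ S, aff p r t u = qf w u → cr (d - x) (u - x) ≠ 0 := by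
    intro u hu hu2 h0
    apply gen u hu hu2
    have e : cr (u - x) (d - x) = -cr (d - x) (u - x) := by
      simp only [cr]; ring
    rw [e, h0, neg_zero]
  rcases idx (cr (b - x) (c - x)) (cr (c - x) (a - x)) (cr (a - x) (b - x))
    (cr (b - d) (c - d)) (cr (c - d) (a - d)) (cr (a - d) (b - d)) hpos.1 hpos.2.1 hpos.2.2
    (by rw [cr_sum]; exact hpos.D) with ⟨h1, h2, h3⟩ | ⟨h1, h2, h3⟩ | ⟨h1, h2, h3⟩
  · obtain ⟨hp, hl⟩ := exch1 w x a b c d p r t hpos la lb lc hlt h1 h2 h3
      (gen c hc lc) (gen' b hb lb)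
    have := hmin (d, b, c) ⟨⟨hd, hb, hc⟩, hp⟩
    simp only at this
    linarith
  · obtain ⟨hp, hl⟩ := exch1 w x b c a d p r t hpos.rot lb lc la hlt h1 h2 h3
      (gen a ha la) (gen' c hc lc)
    have := hmin (d, c, a) ⟨⟨hd, hc, ha⟩, hp⟩
    simp only at this
    rw [Lv_rot w x a b c] at hl
    linarith
  · obtain ⟨hp, hl⟩ := exch1 w x c a b d p r t hpos.rot.rot lc la lb hlt h1 h2 h3
      (gen b hb lb) (gen' a ha la)
    have := hmin (d, a, b) ⟨⟨hd, ha, hb⟩, hp⟩
    simp only at this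
    rw [Lv_rot w x b c a, Lv_rot w x a b c] at hl
    linarith

theorem cr_perm1 (a b c : ℂ) : cr (c - a) (b - a) = -cr (b - a) (c - a) := by
  simp only [cr]; ring

theorem cr_perm2 (a b c : ℂ) : cr (a - b) (c - b) = -cr (b - a) (c - a) := by
  simp only [cr, Complex.sub_re, Complex.sub_im]; ring

theorem cr_perm3 (a b c : ℂ) : cr (c - b) (a - b) = cr (b - a) (c - a) := by
  simp only [cr, Complex.sub_re, Complex.sub_im]; ring

theorem cr_perm4 (a b c : ℂ) : cr (a - c) (b - c) = cr (b - a) (c - a) := by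
  simp only [cr, Complex.sub_re, Complex.sub_im]; ring

theorem cr_perm5 (a b c : ℂ) : cr (b - c) (a - c) = -cr (b - a) (c - a) := by
  simp only [cr, Complex.sub_re, Complex.sub_im]; ring

/-- **Module EXC**, with the vertices ordered by their imaginary parts. -/
theorem exc (S : Finset ℂ) (w : ℂ → ℝ) (x : ℂ) (hx : x ∈ convexHull ℝ (S : Set ℂ))
    (hxS : x ∉ S) (hline : ∀ p ∈ S, ∀ q ∈ S, p ≠ q → cr (q - p) (x - p) ≠ 0)
    (him : Set.InjOn Complex.im (S : Set ℂ)) :
    ∃ a b c : ℂ, Del S w a b c ∧ x ∈ convexHull ℝ ({a, b, c} : Set ℂ) := by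
  obtain ⟨a, ha, b, hb, c, hc, hp, p, r, t, la, lb, lc, hl⟩ := exc0 S w x hx hxS hline
  have hm := hp.mem_hull
  have hD := hp.D.ne'
  have hab : a ≠ b := by
    rintro rfl
    apply hD
    simp [cr]
  have hac : a ≠ c := by
    rintro rfl
    apply hD
    simp [cr]
  have hbc : b ≠ c := by
    rintro rfl
    apply hD
    simp only [cr]
    ring
  have iab : a.im ≠ b.im := fun h => hab (him (Finset.mem_coe.2 ha) (Finset.mem_coe.2 hb) h)
  have iac : a.im ≠ c.im := fun h => hac (him (Finset.mem_coe.2 ha) (Finset.mem_coe.2 hc) h)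
  have ibc : b.im ≠ c.im := fun h => hbc (him (Finset.mem_coe.2 hb) (Finset.mem_coe.2 hc) h)
  rcases lt_or_gt_of_ne iab with h1 | h1 <;> rcases lt_or_gt_of_ne iac with h2 | h2 <;>
    rcases lt_or_gt_of_ne ibc with h3 | h3
  · exact ⟨a, b, c, ⟨ha, hb, hc, h1, h3, hD, p, r, t, la, lb, lc, hl⟩, hm⟩
  · refine ⟨a, c, b, ⟨ha, hc, hb, h2, h3, ?_, p, r, t, la, lc, lb, hl⟩, ?_⟩
    · rw [cr_perm1]; exact neg_ne_zero.2 hD
    · convert hm using 2
      ext z; simp only [mem_insert_iff, mem_singleton_iff]; tauto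
  · linarith
  · refine ⟨c, a, b, ⟨hc, ha, hb, h2, h1, ?_, p, r, t, lc, la, lb, hl⟩, ?_⟩
    · rw [cr_perm4]; exact hD
    · convert hm using 2
      ext z; simp only [mem_insert_iff, mem_singleton_iff]; tauto
  · refine ⟨b, a, c, ⟨hb, ha, hc, h1, h2, ?_, p, r, t, lb, la, lc, hl⟩, ?_⟩
    · rw [cr_perm2]; exact neg_ne_zero.2 hD
    · convert hm using 2
      ext z; simp only [mem_insert_iff, mem_singleton_iff]; tauto
  · linarith
  · refine ⟨b, c, a, ⟨hb, hc, ha, h3, h2, ?_, p, r, t, lb, lc, la, hl⟩, ?_⟩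
    · rw [cr_perm3]; exact hD
    · convert hm using 2
      ext z; simp only [mem_insert_iff, mem_singleton_iff]; tauto
  · refine ⟨c, b, a, ⟨hc, hb, ha, h3, h1, ?_, p, r, t, lc, lb, la, hl⟩, ?_⟩
    · rw [cr_perm5]; exact neg_ne_zero.2 hD
    · convert hm using 2
      ext z; simp only [mem_insert_iff, mem_singleton_iff]; tauto

end Pool.Agent.Helper33.KD
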