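import Mathlib

/-! # Project KD (MP_b21509_co), module RAD: the circumradius of a Delaunay triangle -/

open Set

namespace Pool.Agent.Helper33.KD

theorem sq_norm_sub (s v : ℂ) : ‖s - v‖ ^ 2 = ‖s‖ ^ 2 - 2 * (v.re * s.re + v.im * s.im) + ‖v‖ ^ 2 := by
  rw [← Complex.normSq_eq_norm_sq, ← Complex.normSq_eq_norm_sq, ← Complex.normSq_eq_norm_sq,
    Complex.normSq_apply, Complex.normSq_apply, Complex.normSq_apply]
  simp only [Complex.sub_re, Complex.sub_im]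
  ring

/-- **Module RAD.**  The circumscribed circle of a (generic) Delaunay triangle of a 1-dense set
has radius at most `sqrt (1 + ε)`. -/
theorem rad (S : Finset ℂ) (w : ℂ → ℝ) (ε R : ℝ) (hε : ε ≤ 1)
    (hw : ∀ s ∈ S, 0 ≤ w s ∧ w s ≤ ε)
    (hS : ∀ y : ℂ, ‖y‖ ≤ R → ∃ s ∈ S, ‖y - s‖ ≤ 1)
    (a b c : ℂ) (ha : a ∈ S) (hb : b ∈ S) (hc : c ∈ S) (α : ℝ) (β : ℂ)
    (la : α + β.re * a.re + β.im * a.im = ‖a‖ ^ 2 + w a)
    (lb : α + β.re * b.re + β.im * b.im = ‖b‖ ^ 2 + w b)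
    (lc : α + β.re * c.re + β.im * c.im = ‖c‖ ^ 2 + w c)
    (hl : ∀ s ∈ S, α + β.re * s.re + β.im * s.im ≤ ‖s‖ ^ 2 + w s)
    (x : ℂ) (hx : x ∈ convexHull ℝ {a, b, c}) (hxR : ‖x‖ ≤ R - 3) :
    ∃ (v : ℂ) (ρ : ℝ), 0 ≤ ρ ∧ ρ ^ 2 ≤ 1 + ε ∧ ‖a - v‖ ≤ ρ ∧ ‖b - v‖ ≤ ρ ∧ ‖c - v‖ ≤ ρ := by
  obtain ⟨v, hv⟩ : ∃ v : ℂ, v = ⟨β.re / 2, β.im / 2⟩ := ⟨_, rfl⟩
  have hvr : v.re = β.re / 2 := by rw [hv]
  have hvi : v.im = β.im / 2 := by rw [hv]
  obtain ⟨q, hq⟩ : ∃ q : ℝ, q = α + ‖v‖ ^ 2 := ⟨_, rfl⟩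
  have key : ∀ s : ℂ, ‖s‖ ^ 2 - (α + β.re * s.re + β.im * s.im) = ‖s - v‖ ^ 2 - q := by
    intro s
    rw [sq_norm_sub, hvr, hvi, hq]
    ring
  have va : ‖a - v‖ ^ 2 ≤ q := by linarith [key a, (hw a ha).1]
  have vb : ‖b - v‖ ^ 2 ≤ q := by linarith [key b, (hw b hb).1]
  have vc : ‖c - v‖ ^ 2 ≤ q := by linarith [key c, (hw c hc).1]
  have hq0 : 0 ≤ q := (sq_nonneg _).trans va
  have hs : ∀ s ∈ S, q - ε ≤ ‖s - v‖ ^ 2 := by
    intro s h
    linarith [key s, hl s h, (hw s h).2]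
  have ra : ‖a - v‖ ≤ √q := Real.le_sqrt_of_sq_le va
  have rb : ‖b - v‖ ≤ √q := Real.le_sqrt_of_sq_le vb
  have rc : ‖c - v‖ ≤ √q := Real.le_sqrt_of_sq_le vc
  refine ⟨v, √q, Real.sqrt_nonneg _, ?_, ra, rb, rc⟩
  rw [Real.sq_sqrt hq0]
  have hxv : ‖x - v‖ ≤ √q := by
    have hsub : convexHull ℝ {a, b, c} ⊆ Metric.closedBall v (√q) := by
      refine convexHull_min ?_ (convex_closedBall _ _)
      intro z hz
      simp only [mem_insert_iff, mem_singleton_iff] at hz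
      rcases hz with rfl | rfl | rfl
      · rwa [Metric.mem_closedBall, dist_eq_norm]
      · rwa [Metric.mem_closedBall, dist_eq_norm]
      · rwa [Metric.mem_closedBall, dist_eq_norm]
    have := hsub hx
    rwa [Metric.mem_closedBall, dist_eq_norm] at this
  by_cases h2 : ‖x - v‖ ≤ 2
  · have h3 : ‖v‖ ≤ R := by
      have : ‖v‖ ≤ ‖x‖ + ‖x - v‖ := by
        have := norm_sub_le x (x - v)
        simpa using this
      linarith
    obtain ⟨s, h4, h5⟩ := hS v h3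
    have h6 := hs s h4
    rw [norm_sub_rev] at h5
    have : ‖s - v‖ ^ 2 ≤ 1 := by nlinarith [norm_nonneg (s - v)]
    linarith
  · exfalso
    push Not at h2
    have hne : ‖x - v‖ ≠ 0 := by linarith
    have hy1 : ‖(2 / ‖x - v‖) • (v - x)‖ = 2 := by
      rw [norm_smul, norm_sub_rev v x, Real.norm_of_nonneg (by positivity)]
      field_simp
    have hyR : ‖x + (2 / ‖x - v‖) • (v - x)‖ ≤ R := by
      have := norm_add_le x ((2 / ‖x - v‖) • (v - x))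
      linarith
    obtain ⟨s, h4, h5⟩ := hS _ hyR
    have h6 := hs s h4
    have hyv : ‖x + (2 / ‖x - v‖) • (v - x) - v‖ = ‖x - v‖ - 2 := by
      have e : x + (2 / ‖x - v‖) • (v - x) - v = (1 - 2 / ‖x - v‖) • (x - v) := by
        rw [sub_smul, one_smul, show v - x = -(x - v) by ring, smul_neg]
        ring
      rw [e, norm_smul, Real.norm_of_nonneg]
      · field_simp
      · rw [sub_nonneg, div_le_one (by linarith)]
        linarith
    have h7 : ‖s - v‖ ≤ √q - 1 := by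
      have h8 : ‖s - v‖ ≤ ‖x + (2 / ‖x - v‖) • (v - x) - s‖ +
          ‖x + (2 / ‖x - v‖) • (v - x) - v‖ := by
        have := norm_sub_le (x + (2 / ‖x - v‖) • (v - x) - v) (x + (2 / ‖x - v‖) • (v - x) - s)
        have e : x + (2 / ‖x - v‖) • (v - x) - v - (x + (2 / ‖x - v‖) • (v - x) - s) = s - v := by
          ring
        rw [e] at this
        linarith
      linarith
    have h9 : ‖s - v‖ ^ 2 ≤ (√q - 1) ^ 2 := by
      apply pow_le_pow_left₀ (norm_nonneg _) h7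
    have h10 : √q ^ 2 = q := Real.sq_sqrt hq0
    nlinarith

end Pool.Agent.Helper33.KD
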