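import Pool.Agent.Helper33.KD.Exc
import Pool.Agent.Helper88.KD.Exc
import Pool.Agent.Helper51.KD.Fin
import Pool.Agent.Helper35.KD.Den

/-! # Project KD (MP_b21509_co): Kershner's lower bound for coverings by unit disks -/

open Set Helper97.CB

namespace Pool.Agent.Helper33.KD

theorem hHUL : Helper51.KD.StHUL := fun S R hS x hx => hul S R hS x hx

theorem hEXC : Helper51.KD.StEXC := fun _ g _ hx hl hS => Helper88.KD.exists_delaunay g hx hl hS

/-- A finite set which is 1-dense in the disk of radius `R` has at least `(2 π / √27) (R - 3) ^ 2`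
elements. -/
theorem hFin : Helper35.KD.StFin := by
  intro S R hR hS
  exact Helper51.KD.fin_main hEXC hHUL S R (by linarith) hS

/-- **Kershner's theorem**, lower bound: coverings by congruent copies of the unit disk. -/
theorem kershner_dens (φ : ℕ → (ℂ ≃ᵢ ℂ)) (hφ : ⋃ i, φ i '' Metric.closedBall 0 1 = univ) :
    ENNReal.ofReal (2 * Real.pi / √27) ≤ dens (Metric.closedBall 0 1) φ :=
  Helper35.KD.hDEN hFin φ hφ

/-- **Kershner's theorem**, lower bound for the covering density of the unit disk. -/
theorem kershner : ENNReal.ofReal (2 * Real.pi / √27) ≤ theta (Metric.closedBall (0 : ℂ) 1) :=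
  Helper35.KD.theta_ge hFin

end Pool.Agent.Helper33.KD
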